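import Pool.Agent.Work.MP_46fa68_19.m10_17_7.Chk
import Pool.Agent.Work.MP_46fa68_31.m10_17_7.R
import Pool.Agent.Work.MP_46fa68_31.Cell
import Pool.Agent.Work.MP_46fa68_95.PsdB
import Pool.Agent.Work.MP_46fa68_74.Scale

/-! # MP_46fa68_co, full marked kernel m10_17_7: the gaps -/

set_option autoImplicit false

namespace Pool.JM.MK.m10_17_7

open Finset Pool.EG Pool.JM

theorem sc : ScIneq (16 + 1) (16 + 1 - (8 + 2)) (((634379798999763304668182070673113283251 : ℤ) : ℝ) / 2 ^ 128)
    (((46182480725683388450368646332756380533 : ℤ) : ℝ) / 2 ^ 128) (((-8360374945507282208863492527672610212644 : ℤ) : ℝ) / 2 ^ 128)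
    ((((-545507130979775700910400022309422578642 : ℤ) : ℝ) + ((3504421463462038765169434835012789611259 : ℤ) : ℝ)) / 2 ^ 128 - (8 + 2).factorial * (1 / 10 ^ 17))
    ((((-545507130979775700910400022309422578642 : ℤ) : ℝ)) / 2 ^ 128 - (8 + 2).factorial * (1 / 10 ^ 17)) := by
  have hc0 : 262143 = RT.cd (range 18) := by
    have h := cd_range 18
    change 262143 = cd (range 18)
    rw [h]
    norm_num
  obtain ⟨al, h1, h2, h3⟩ := RT.cellChk_sound (N := 16 + 1) (M := 18) (m := 8 + 2) (n := 16)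
    (K := 29) (R := 18) (S := (2 : ℝ) ^ 128) (cs := cs) (by norm_num) (by norm_num)
    (by norm_num) (by positivity) hL (by norm_num) (by norm_num) (by norm_num) (by norm_num) hc0
    (by rfl) (by rfl) (by norm_num [Nat.factorial]) (by norm_num [Nat.factorial])
    (fun k hk => hcs k (by omega)) hct hsc hcellC
  exact full_tables (n := 16) (j := 8) (M := 18) (L := 12252240) (W := 35) (R := 18) (N := 176)
    (T := 2 ^ 50) (S := (2 : ℝ) ^ 128) (by norm_num) (by norm_num) hL (by norm_num) (by norm_num)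
    (by norm_num) (by positivity) tB tD cs hcs hN hGz hG hsB hsD hr0 (by norm_num) hTB2 hTD hd hE
    (chP_sound (by positivity) (by norm_num) (hcs 16 (by norm_num)) hpsd) al h1 h2 h3
    (RT.rowChk_sound (N := 16 + 1) (K := 29) (R := 18) (cs := cs 10) (by norm_num) (by norm_num)
      (by positivity) hL (by norm_num) (by norm_num) (by norm_num) (by norm_num) hc0 (by rfl) hsc1
      hrowC)
    (RT.bothChk_sound (N := 16 + 1) (K := 29) (R := 18) (m := 8 + 2) (by norm_num) (by norm_num)
      (by positivity) hL (by norm_num) (by norm_num) (by norm_num) (by norm_num) hc0 (by rfl) hsc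
      hbothC)

theorem gap_33o50_7o40_811o1000 : Gap 17 7 (33 / 50) (7 / 40) (811 / 1000) := by
  have h : ExclS (16 + 1) (16 + 1 - (8 + 2)) (33 / 50) (7 / 40) (811 / 1000) := by
    refine excl_of_scaled (by norm_num) sc (by norm_num) (by norm_num) ?_ ?_ ?_ ?_ ?_ ?_ ?_ ?_ <;>
      norm_num [Nat.factorial]
  exact h.gap

theorem gap_133o200_173o1000_813o1000 : Gap 17 7 (133 / 200) (173 / 1000) (813 / 1000) := by
  have h : ExclS (16 + 1) (16 + 1 - (8 + 2)) (133 / 200) (173 / 1000) (813 / 1000) := by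
    refine excl_of_scaled (by norm_num) sc (by norm_num) (by norm_num) ?_ ?_ ?_ ?_ ?_ ?_ ?_ ?_ <;>
      norm_num [Nat.factorial]
  exact h.gap

theorem gap_7o10_161o1000_413o500 : Gap 17 7 (7 / 10) (161 / 1000) (413 / 500) := by
  have h : ExclS (16 + 1) (16 + 1 - (8 + 2)) (7 / 10) (161 / 1000) (413 / 500) := by
    refine excl_of_scaled (by norm_num) sc (by norm_num) (by norm_num) ?_ ?_ ?_ ?_ ?_ ?_ ?_ ?_ <;>
      norm_num [Nat.factorial]
  exact h.gap

theorem gap_209o250_127o1000_431o500 : Gap 17 7 (209 / 250) (127 / 1000) (431 / 500) := by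
  have h : ExclS (16 + 1) (16 + 1 - (8 + 2)) (209 / 250) (127 / 1000) (431 / 500) := by
    refine excl_of_scaled (by norm_num) sc (by norm_num) (by norm_num) ?_ ?_ ?_ ?_ ?_ ?_ ?_ ?_ <;>
      norm_num [Nat.factorial]
  exact h.gap

theorem gap_21o25_63o500_431o500 : Gap 17 7 (21 / 25) (63 / 500) (431 / 500) := by
  have h : ExclS (16 + 1) (16 + 1 - (8 + 2)) (21 / 25) (63 / 500) (431 / 500) := by
    refine excl_of_scaled (by norm_num) sc (by norm_num) (by norm_num) ?_ ?_ ?_ ?_ ?_ ?_ ?_ ?_ <;>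
      norm_num [Nat.factorial]
  exact h.gap

end Pool.JM.MK.m10_17_7
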